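import Pool.Agent.RefW.Final
import Pool.Agent.RefW.General

/-!
# The height inequality for all points of bounded degree of the projective line

Any number field `k`, any degree, the places of `k` above `∞, p 0, ..., p (r - 1)`, any finite sets
of algebraic targets, in two forms. First form: Wirsing's inequality, with the closeness of the
pairs of conjugates to a common target added to the left side. Second form: the inequality with the
discriminant of the field, where the error terms are the logarithm of the prime-to-`S` part of the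
index `I` of the order attached to the point and the closeness of its conjugates at the places of
`S` which is not explained by their closeness to the targets.
-/

open Polynomial NumberField Pool.Agent.SST Pool.Agent.RefW

namespace Pool.Agent.Results.MP_6f1c57_nt.AllDegrees

theorem result (k : Type) [Field k] [NumberField k] {r : ℕ} (p : Fin r → ℕ)
    [∀ t, Fact (p t).Prime] (hp : Function.Injective p) (ν : ℕ)
    (D : (k →+* ℂ) → Finset (OnePoint ℂ)) (D' : ∀ t, (k →+* ℂ_[p t]) → Finset (OnePoint ℂ_[p t]))
    (hD : ∀ ρ, ∀ θ ∈ D ρ, AlgP θ) (hD' : ∀ t ρ, ∀ θ ∈ D' t ρ, AlgP θ) (ε : ℝ) (hε : 0 < ε) :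
    ∃ C : ℝ, ∀ (K : Type) [Field K] [NumberField K] [Algebra k K] (x : K),
      IntermediateField.adjoin k {x} = ⊤ → Module.finrank k K ≤ ν →
      (∀ σ : K →+* ℂ, ((σ x : ℂ) : OnePoint ℂ) ∉ D (σ.comp (algebraMap k K))) →
      (∀ t (σ : K →+* ℂ_[p t]),
        ((σ x : ℂ_[p t]) : OnePoint ℂ_[p t]) ∉ D' t (σ.comp (algebraMap k K))) →
      (diagSum chord D K x + ∑ t, diagSum chordM (D' t) K x) / Module.finrank ℚ K +
          (offSum chord D K x + ∑ t, offSum chordM (D' t) K x) / Module.finrank ℚ K ≤
        2 * Module.finrank k K * ht K x + ε * ht K x + C ∧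
      ∀ F : (𝓞 k)[X], aeval x F = 0 → F.natDegree = Module.finrank k K →
        ∃ I : ℕ, 0 < I ∧
          |Algebra.norm ℤ F.discr| * |NumberField.discr k| ^ Module.finrank k K =
            (I : ℤ) ^ 2 * |NumberField.discr K| *
              (Ideal.absNorm F.contentIdeal : ℤ) ^ (2 * Module.finrank k K - 2) ∧
          (diagSum chord D K x + ∑ t, diagSum chordM (D' t) K x) / Module.finrank ℚ K -
              2 * ht K x ≤
            logDisc K + 2 * Real.log (I * ∏ t, ‖((I : ℕ) : ℚ_[p t])‖) / Module.finrank ℚ K +
              (excess chord D K x + ∑ t, excess chordM (D' t) K x) / Module.finrank ℚ K +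
              ε * ht K x + C := by
  obtain ⟨C₁, h₁⟩ := general k p hp ν D D' hD hD' ε hε
  obtain ⟨C₂, h₂⟩ := final k p hp ν D D' hD hD' ε hε
  refine ⟨max C₁ C₂, fun K _ _ _ x hx hν hσ hσ' => ⟨?_, fun F hF hdeg => ?_⟩⟩
  · exact (h₁ K x hx hν hσ hσ').trans (by linarith [le_max_left C₁ C₂])
  · obtain ⟨I, hI, hdisc, hle⟩ := h₂ K x F hx hν hF hdeg hσ hσ'
    exact ⟨I, hI, hdisc, hle.trans (by linarith [le_max_right C₁ C₂])⟩

end Pool.Agent.Results.MP_6f1c57_nt.AllDegrees
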