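import Pool.Agent.SST.ProxAllK

/-!
# The height inequality for all quadratic points of the projective line over any number field

`k` is any number field, `S` is the set of all places of `k` above `∞, p 0, ..., p (r - 1)`
(every finite set of places is contained in such a set), `D` is the divisor of zeros of a binary
form over `k` without multiple zeros, `P = (x : 1)` is any point of degree two over `k`. The error
term of the inequality is the logarithm of the prime-to-`S` part of the index `F` of the order
attached to the point.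
-/

open Pool.Agent.SST NumberField

namespace Pool.Agent.Results.MP_6f1c57_nt.AllQuadraticNF

theorem result (k : Type) [Field k] [NumberField k] {r : ℕ} (p : Fin r → ℕ)
    [∀ t, Fact (p t).Prime] (hp : Function.Injective p) (g : Polynomial k) (hg : Squarefree g)
    (n : ℕ) (hn : n = g.natDegree ∨ n = g.natDegree + 1) (ε : ℝ) (hε : 0 < ε) :
    ∃ C : ℝ, ∀ (K : Type) [Field K] [NumberField K] [Algebra k K], Module.finrank k K = 2 →
      ∀ x : K, x ∉ Set.range (algebraMap k K) → Polynomial.aeval x g ≠ 0 →
      ∀ a b c : 𝓞 k, ¬ (a = 0 ∧ b = 0 ∧ c = 0) →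
        algebraMap k K a * x ^ 2 + algebraMap k K b * x + algebraMap k K c = 0 →
        ∃ F : ℕ, 0 < F ∧ discr k ^ 2 * |Algebra.norm ℤ (b ^ 2 - 4 * a * c)| =
            (F : ℤ) ^ 2 * (Ideal.absNorm (Ideal.span {a, b, c}) : ℤ) ^ 2 * |discr K| ∧
          proxK p g n K x - 2 * ht K x ≤
            logDisc K + Real.log (F * ∏ t, ‖((F : ℕ) : ℚ_[p t])‖) / Module.finrank ℚ k +
              ε * ht K x + C := by
  obtain ⟨C, h⟩ := all_SK k p hp g hg n hn ε hε
  refine ⟨C, fun K _ _ _ hK x hx hgx a b c habc hf => ?_⟩
  have hf0 : (![a, b, c] : Fin 3 → 𝓞 k) ≠ 0 := by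
    intro h0
    exact habc ⟨congrFun h0 0, congrFun h0 1, congrFun h0 2⟩
  obtain ⟨F, hF, hFd, h1⟩ := h K hK x hx hgx ![a, b, c] hf0 hf
  refine ⟨F, hF, ?_, h1⟩
  have hc : contentK ![a, b, c] = Ideal.span {a, b, c} := by
    rw [contentK, Matrix.range_cons, Matrix.range_cons, Matrix.range_cons, Matrix.range_empty,
      Set.union_empty]
    rfl
  rw [← hc]
  exact hFd

end Pool.Agent.Results.MP_6f1c57_nt.AllQuadraticNF
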