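import Pool.Agent.AAL.Viol
import Pool.Agent.AAL.IntLow
import Pool.Agent.AAS.Viol
import Pool.Agent.AAS.LowAll

/-!
# The height inequality with the true discriminant holds for almost all points of the line

The points `P = (x : 1)` of given degree `n ≥ 2` over a number field `k` are counted by their height
relative to `k(P)`. The number of the points which violate `m(D, P) - 2 h(P) ≤ d(P) + ε h(P)`, with
the discriminant of the residue field, is bounded for every divisor `D`. It is of smaller order than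
the number of the points with `m(D, P) ≥ (2 + δ) h(P)` for small `δ`, for all divisors of degree at
least `3` if `n ≥ 4`, and for all divisors which contain a point of degree at least `3`. For small
degree of `D` it is also of smaller order than the number of the points with
`m(D, P) ≥ q h(P) - C`.
-/

open Polynomial NumberField Module Pool.Agent.AA

namespace Pool.Agent.Results.MP_6f1c57_nt.AlmostAll

/-- The points `(x : 1)` of degree `n` over `k` and of height at most `B`, outside the divisor. -/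
def Points (k : Type) [Field k] [NumberField k] (g : k[X]) (n : ℕ) (B : ℝ) :
    Set (AlgebraicClosure k) :=
  {x | finrank k (IntermediateField.adjoin k {x}) = n ∧ relHeight x ≤ B ∧ aeval x g ≠ 0}

/-- The points which violate the inequality `m - 2 h ≤ d + ε h`. -/
def Violators (k : Type) [Field k] [NumberField k] {r : ℕ} (p : Fin r → ℕ)
    [∀ t, Fact (p t).Prime] (g : k[X]) (q n : ℕ) (ε B : ℝ) : Set (AlgebraicClosure k) :=
  {x | x ∈ Points k g n B ∧ logDiscr x + ε * height x < proximity p g q x - 2 * height x}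

theorem result (k : Type) [Field k] [NumberField k] {r : ℕ} (p : Fin r → ℕ)
    [∀ t, Fact (p t).Prime] (hp : Function.Injective p) (g : k[X]) (hg : Squarefree g) (q : ℕ)
    (hq : q = g.natDegree ∨ q = g.natDegree + 1) (n : ℕ) (hn : 2 ≤ n) :
    (∀ ε β : ℝ, 0 < ε → 0 < β → ∃ C : ℝ, ∀ B : ℝ, 1 ≤ B →
      {x ∈ Violators k p g q n ε B | proximity p g q x ≤ (2 + β) * height x}.Finite ∧
      ({x ∈ Violators k p g q n ε B | proximity p g q x ≤ (2 + β) * height x}.ncard : ℝ) ≤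
        C * B ^ (β * ((n : ℝ) + 2) / 4)) ∧
    (∀ ε η : ℝ, 0 < ε → 0 < η → ∃ C : ℝ, ∀ B : ℝ, 1 ≤ B →
      (Violators k p g q n ε B).Finite ∧ ((Violators k p g q n ε B).ncard : ℝ) ≤
        C * B ^ (((n : ℝ) - 1) * (n + 2) / (n + 4) + η)) ∧
    (3 ≤ q → q ≤ n + 1 → ∀ ε η : ℝ, 0 < ε → 0 < η → ∃ C : ℝ, ∀ B : ℝ, 1 ≤ B →
      ((Violators k p g q n ε B).ncard : ℝ) ≤
        C * B ^ (min ((q : ℝ) - 2) (4 * ((n : ℝ) - 1) / (n + 6)) * ((n : ℝ) + 2) / 4 + η)) ∧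
    (∀ δ η : ℝ, 0 ≤ δ → δ < 1 → 0 < η →
      (4 ≤ n ∧ 3 ≤ q ∨ ∃ g' : k[X], g' ∣ g ∧ Irreducible g' ∧ 3 ≤ g'.natDegree ∧
        (n = 2 → δ < 1 / 2)) → ∃ c B₀ : ℝ, 0 < c ∧ ∀ B : ℝ, B₀ ≤ B →
        ∃ T : Finset (AlgebraicClosure k), c * B ^ ((n : ℝ) - 1 - δ - η) ≤ (T.card : ℝ) ∧
          ∀ x ∈ T, x ∈ Points k g n B ∧ (2 + δ) * height x ≤ proximity p g q x) ∧
    (∀ (g' : k[X]) (q' : ℕ), g' ∣ g →
      (q' = g'.natDegree ∨ q' = g'.natDegree + 1 ∧ q = g.natDegree + 1) → 3 ≤ q' → q' ≤ n →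
      ∀ δ η : ℝ, 0 ≤ δ → δ < q' - 2 → 0 < η → ∃ c B₀ : ℝ, 0 < c ∧ ∀ B : ℝ, B₀ ≤ B →
        ∃ T : Finset (AlgebraicClosure k), c * B ^ ((n : ℝ) - 1 - δ - η) ≤ (T.card : ℝ) ∧
          ∀ x ∈ T, x ∈ Points k g n B ∧ (2 + δ) * height x ≤ proximity p g q x) ∧
    (3 ≤ q → q ≤ n →
      ∃ c C B₀ : ℝ, 0 < c ∧ ∀ B : ℝ, B₀ ≤ B →
        ∃ T : Finset (AlgebraicClosure k), c * B ^ ((n : ℝ) + 1 - q) ≤ (T.card : ℝ) ∧
          ∀ x ∈ T, x ∈ Points k g n B ∧ q * height x - C ≤ proximity p g q x) := by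
  have hset : ∀ ε B : ℝ, Violators k p g q n ε B =
      {x : AlgebraicClosure k | finrank k (IntermediateField.adjoin k {x}) = n ∧
        relHeight x ≤ B ∧ aeval x g ≠ 0 ∧
        logDiscr x + ε * height x < proximity p g q x - 2 * height x} := by
    intro ε B
    ext x
    constructor
    · rintro ⟨⟨h1, h2, h3⟩, h4⟩
      exact ⟨h1, h2, h3, h4⟩
    · rintro ⟨h1, h2, h3, h4⟩
      exact ⟨⟨h1, h2, h3⟩, h4⟩
  refine ⟨fun ε β hε hβ => ?_, fun ε η hε hη => ?_, fun hq3 hqn ε η hε hη => ?_,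
    fun δ η hδ hδ1 hη hcase => ?_, fun g' q' hdvd hq' hq3 hqn δ η hδ hδ1 hη => ?_,
    fun hq3 hqn => ?_⟩
  · obtain ⟨C, hC⟩ := upper k p hp g hg q hq n hn ε β hε hβ
    refine ⟨C, fun B hB => ?_⟩
    have hset' : {x ∈ Violators k p g q n ε B | proximity p g q x ≤ (2 + β) * height x} =
        {x : AlgebraicClosure k | finrank k (IntermediateField.adjoin k {x}) = n ∧
          relHeight x ≤ B ∧ aeval x g ≠ 0 ∧ proximity p g q x ≤ (2 + β) * height x ∧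
          logDiscr x + ε * height x < proximity p g q x - 2 * height x} := by
      ext x
      constructor
      · rintro ⟨⟨⟨h1, h2, h3⟩, h4⟩, h5⟩
        exact ⟨h1, h2, h3, h5, h4⟩
      · rintro ⟨h1, h2, h3, h5, h4⟩
        exact ⟨⟨⟨h1, h2, h3⟩, h4⟩, h5⟩
    rw [hset']
    exact hC B hB
  · obtain ⟨C, hC⟩ := Pool.Agent.AAS.viol_gen k p hp g hg q hq n hn ε η hε hη
    refine ⟨C, fun B hB => ?_⟩
    rw [hset]
    exact hC B hB
  · obtain ⟨C, hC⟩ := Pool.Agent.AAL.viol_count k p hp g hg q hq hq3 n hn hqn ε η hε hη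
    refine ⟨C, fun B hB => ?_⟩
    rw [hset]
    exact (hC B hB).2
  · obtain ⟨c, B₀, h0, h1⟩ : ∃ c B₀ : ℝ, 0 < c ∧ ∀ B : ℝ, B₀ ≤ B →
        ∃ S : Finset (AlgebraicClosure k), c * B ^ ((n : ℝ) - 1 - δ - η) ≤ (S.card : ℝ) ∧
          ∀ x ∈ S, finrank k (IntermediateField.adjoin k {x}) = n ∧ relHeight x ≤ B ∧
            aeval x g ≠ 0 ∧ (2 + δ) * height x ≤ proximity p g q x := by
      rcases hcase with ⟨h4, h3⟩ | ⟨g', hdvd, hirr, h3, h2⟩
      · exact Pool.Agent.AAS.lower_four k p hp g hg q hq h3 n h4 δ η hδ hδ1 hη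
      · exact Pool.Agent.AAS.lower_pt k p hp g hg q hq n hn g' hdvd hirr h3 δ η hδ hδ1 h2 hη
    refine ⟨c, B₀, h0, fun B hB => ?_⟩
    obtain ⟨T, h2, h3⟩ := h1 B hB
    exact ⟨T, h2, fun x hx => ⟨⟨(h3 x hx).1, (h3 x hx).2.1, (h3 x hx).2.2.1⟩, (h3 x hx).2.2.2⟩⟩
  · obtain ⟨c, B₀, h0, h1⟩ := Pool.Agent.AAS.lower_sub k p hp g hg q hq n g' hdvd q' hq' hq3
      hqn δ η hδ hδ1 hη
    refine ⟨c, B₀, h0, fun B hB => ?_⟩
    obtain ⟨T, h2, h3⟩ := h1 B hB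
    exact ⟨T, h2, fun x hx => ⟨⟨(h3 x hx).1, (h3 x hx).2.1, (h3 x hx).2.2.1⟩, (h3 x hx).2.2.2⟩⟩
  · obtain ⟨c, C, B₀, h0, h1⟩ := Pool.Agent.AAL.lower_int k p hp g hg q hq (by omega) n hqn
    refine ⟨c, C, B₀, h0, fun B hB => ?_⟩
    obtain ⟨T, h2, h3⟩ := h1 B hB
    exact ⟨T, h2, fun x hx => ⟨⟨(h3 x hx).1, (h3 x hx).2.1, (h3 x hx).2.2.1⟩, (h3 x hx).2.2.2⟩⟩

end Pool.Agent.Results.MP_6f1c57_nt.AlmostAll
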