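import Pool.Agent.EVC.AllNu
import Pool.Agent.EVC.Belyi

/-!
# The height inequality for almost all points of every curve (MP_6f1c57_nt)

A complete nonsingular irreducible curve `C` over the number field `k` is given by its function
field `F`, and its points with values in the algebraic closure of `k` are the elements of `Pt k F`:
a valuation ring of `F` which contains `k` (the local ring), and a homomorphism of it to the
algebraic closure (the value), with kernel the maximal ideal. For a nonconstant function `x` of
degree `n = [F : k(x)]`: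

- `P.eval x` is the value `x(P)` and `AA.height (P.eval x)` its absolute logarithmic height, which
  is `h_A(P)` for the ample divisor `A` of the poles of `x`;
- `P.logDiscr` is the normalised logarithmic discriminant `d(P)` of the residue field `k(P)`, which
  is generated by the values at `P` and is a finite extension of `k` (last but one clause);
- `AA.proximity p g q (P.eval x)` is the proximity function `m(D, P)` for the pull back `D` of the
  divisor of zeros of the binary form of degree `q` given by `g`; every divisor without multiple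
  points is contained in such a pull back;
- `P.ram x` is the ramification index of `x` at `P`;
- `canDeg k x` is the degree of the divisor of `dx`, i.e. `2 g - 2` (for geometrically irreducible
  `C`), so `h_K(P)` is `canDeg k x / n` times `h_A(P)` up to `O(1 + h_A(P) ^ (1 / 2))`.

The points `Pts k x m T` are those with `[k(x(P)) : k] = m` and `h_A(P) ≤ T`, the points
`PtsLe k x ν T` those with `[k(P) : k] ≤ ν` and `h_A(P) ≤ T` (without the poles of `x`).

By the theorem of Belyi (the clause after the formula of Hurwitz) there is on every curve a function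
`x` which is unramified above infinity and ramified only above points of the line with coordinates
in `k`. For it the number in the first statement is `ramSum k x _ / n = canDeg k x / n + 2`, for all
`m`, by the formula of Hurwitz: so the first statement is the inequality of Q1, with
`(2 + A') h(x(P))` to spare, for almost all `P` above the points of degree `m` of the line. The
fifth statement is the inequality of Q1 for almost all of all the points of degree at most `ν`, for
every large `ν`, every curve and every nonconstant function `x`.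
-/

set_option autoImplicit false

open Polynomial NumberField IntermediateField Module Pool.Agent Pool.Agent.EVC

namespace Pool.Agent.Results.MP_6f1c57_nt.EveryCurve

theorem result (k : Type) [Field k] [NumberField k] (F : Type) [Field F] [Algebra k F]
    (hF : IsCurve k F) {t : ℕ} (p : Fin t → ℕ) [∀ i, Fact (p i).Prime]
    (hp : Function.Injective p) (g : k[X]) (hg : Squarefree g) (q : ℕ)
    (hq : q = g.natDegree ∨ q = g.natDegree + 1) (m : ℕ) (hm : 1 ≤ m) (E : ℝ)
    (hE : E = min (((m : ℝ) + 2) / 4)
      (Nat.clog 2 (finrank ℚ k * m) * (Nat.clog 2 (finrank ℚ k * m) + 2))) :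
    (∀ x : F, Transcendental k x →
      -- the points above the points of degree `m` of the line
      (∀ A' : ℝ, A' = 0 ∨ (0 < A' ∧ A' * E < m - 1) ∨ (m = 2 ∧ A' < 2) → ∀ A B : ℝ,
        A < (ramSum k x fun d => d ≤ 2 * m + 1 ∨ (m = 1 ∧ d ≤ 4)) /
          (finrank (IntermediateField.adjoin k {x}) F : ℝ) + A' →
        ∃ C δ : ℝ, 0 < δ ∧ ∀ T : ℝ, 0 ≤ T →
        {P ∈ Pts k x m T | aeval (P.eval x) g ≠ 0 ∧ P.logDiscr ≤
          AA.proximity p g q (P.eval x) + A * AA.height (P.eval x) + B}.Finite ∧
        ({P ∈ Pts k x m T | aeval (P.eval x) g ≠ 0 ∧ P.logDiscr ≤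
          AA.proximity p g q (P.eval x) + A * AA.height (P.eval x) + B}.ncard : ℝ) ≤
          C * Real.exp ((m + 1 - δ) * (finrank ℚ k * m) * T)) ∧
      -- the points above algebraic integers of degree `m`
      (∀ A' : ℝ, A' = 0 ∨ (0 < A' ∧ A' * E < m - 1) → ∀ A B : ℝ,
        A < (ramSum k x fun d => d < 2 * m) /
          (finrank (IntermediateField.adjoin k {x}) F : ℝ) + A' →
        ∃ C δ : ℝ, 0 < δ ∧ ∀ T : ℝ, 0 ≤ T →
        ({P ∈ Pts k x m T | IsIntegral ℤ (P.eval x) ∧ P.logDiscr ≤
          A * AA.height (P.eval x) + B}.ncard : ℝ) ≤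
          C * Real.exp ((m - δ) * (finrank ℚ k * m) * T)) ∧
      -- the number of these points
      (∃ c T₀ : ℝ, 0 < c ∧ ∀ T : ℝ, T₀ ≤ T → (Pts k x m T).Finite ∧
        c * Real.exp ((m + 1) * (finrank ℚ k * m) * T) ≤ ((Pts k x m T).ncard : ℝ) ∧
        c * Real.exp (m * (finrank ℚ k * m) * T) ≤
          ({P ∈ Pts k x m T | IsIntegral ℤ (P.eval x)}.ncard : ℝ)) ∧
      -- the points with a small discriminant above the points of degree at most `m`
      (∀ A B : ℝ, 0 ≤ A → 0 ≤ B → ∃ C : ℝ, ∀ T : ℝ, 0 ≤ T →
        {P : Pt k F | x ∈ P.ring ∧ finrank k (IntermediateField.adjoin k {P.eval x}) ≤ m ∧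
          AA.height (P.eval x) ≤ T ∧ P.logDiscr ≤ A * AA.height (P.eval x) + B}.Finite ∧
        ({P : Pt k F | x ∈ P.ring ∧ finrank k (IntermediateField.adjoin k {P.eval x}) ≤ m ∧
          AA.height (P.eval x) ≤ T ∧ P.logDiscr ≤ A * AA.height (P.eval x) + B}.ncard : ℝ) ≤
          C * Real.exp ((A * E + 2) * (finrank ℚ k * m) * T)) ∧
      -- all points of degree at most `ν`, for all large `ν`
      (∀ A B δ : ℝ, 0 ≤ δ → ∃ ν₀ : ℕ, ∀ ν : ℕ, ν₀ ≤ ν → ∃ C : ℝ, ∀ T : ℝ, 0 ≤ T →
        (PtsLe k x ν T).Finite ∧
        ({P ∈ PtsLe k x ν T | aeval (P.eval x) g ≠ 0 ∧ P.logDiscr ≤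
          AA.proximity p g q (P.eval x) + A * AA.height (P.eval x) + B}.ncard : ℝ) ≤
          C * Real.exp (-δ * T) * (PtsLe k x ν T).ncard) ∧
      -- the formula of Hurwitz
      (∀ D : ℕ → Prop, (∀ P : Pt k F, x ∉ P.ring → P.ram x = 1) →
        (∀ P : Pt k F, x ∈ P.ring → 1 < P.ram x →
          D (finrank k (IntermediateField.adjoin k {P.eval x}))) →
        (ramSum k x D : ℤ) = canDeg k x + 2 * finrank (IntermediateField.adjoin k {x}) F)) ∧
    -- the function `x` of Belyi
    (∃ x : F, Transcendental k x ∧ (∀ P : Pt k F, x ∉ P.ring → P.ram x = 1) ∧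
      ∀ P : Pt k F, x ∈ P.ring → 1 < P.ram x →
        finrank k (IntermediateField.adjoin k {P.eval x}) = 1) ∧
    -- every point has a finite extension of `k` as residue field
    (∀ P : Pt k F, FiniteDimensional k P.field) ∧
    -- hyperelliptic curves with one factor of degree `5` or `6`, for example of genus `2`: the
    -- points above `P^1(k)`
    (m = 1 → ∀ f₁ f₂ : k[X], Squarefree (f₁ * f₂) →
      (∀ g : k[X], Irreducible g → g ∣ f₁ → g.natDegree ≤ 4) →
      (f₂.natDegree = 5 ∨ f₂.natDegree = 6) → ∀ A B : ℝ,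
      A < ((((f₁ * f₂).natDegree - 1) / 2 : ℕ) : ℝ) - 1 →
      ∃ C δ : ℝ, 0 < δ ∧ ∀ T : ℝ, 0 ≤ T →
      {P ∈ SFD.Cov k (f₁ * f₂) 2 1 T | aeval P.1 g ≠ 0 ∧ HD.logDiscr P ≤
        AA.proximity p g q P.1 + A * AA.height P.1 + B}.Finite ∧
      ({P ∈ SFD.Cov k (f₁ * f₂) 2 1 T | aeval P.1 g ≠ 0 ∧ HD.logDiscr P ≤
        AA.proximity p g q P.1 + A * AA.height P.1 + B}.ncard : ℝ) ≤
        C * Real.exp ((2 - δ) * finrank ℚ k * T)) := by
  subst hE
  refine ⟨fun x hx => ⟨fun A' hA' A B hA => ?_, fun A' hA' A B hA => ?_, ?_,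
    fun A B hA hB => ?_, fun A B δ hδ => ?_, fun D h1 h2 => ?_⟩, ?_, ?_,
    fun _ f₁ f₂ hf hD h56 A B hA => ?_⟩
  · exact q1_curve k p hp g hg q hq F hF hx m hm A' hA' A B hA
  · exact int_curve k F hF hx m hm A' hA' A B hA
  · exact lower_curve k F hF hx m hm
  · exact small_curve k F hF hx A B hA hB m
  · exact all_curve k p hp g q hq F hF hx A B δ hδ
  · exact ramSum_eq hF hx D h1 h2
  · exact exists_belyi k F hF
  · exact fun P => P.finite_field hF
  · exact RP2.q1_hyp k p hp g hg q hq f₁ f₂ hf hD h56 A B hA

end Pool.Agent.Results.MP_6f1c57_nt.EveryCurve
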